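import Mathlib
import Pool.Agent.H60.QDensDefs

namespace Pool.Agent.Results.MP_32b555_nt.Unique

open Pool.Agent.H60.QDens

/-- Every upper quasi-density on `ℕ⁺` has exactly one extension to an upper quasi-density
on `ℕ`. -/
theorem result : ∀ μ : Set ℕ → ℝ, IsUQD {n | 1 ≤ n} μ →
    ∃! ν : Set ℕ → ℝ, IsUQD Set.univ ν ∧ ∀ X ⊆ {n | 1 ≤ n}, ν X = μ X := by
  rintro μ ⟨h1, h2, h3, h4⟩
  have hs : ∀ (X : Set ℕ) (k h : ℕ), 1 ≤ h → (fun x => k * x + h) '' X ⊆ {n | 1 ≤ n} := by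
    rintro X k h hh _ ⟨x, -, rfl⟩
    exact le_trans hh (Nat.le_add_left _ _)
  refine ⟨fun X => μ ((fun x => 1 * x + 1) '' X), ⟨⟨?_, fun X _ Y _ => ?_, fun X _ h k hh hk => ?_,
    fun X _ => h4 _ (hs X 1 1 le_rfl)⟩, fun X hX => ?_⟩, ?_⟩
  · refine (congrArg μ ?_).trans h1
    ext n
    simp only [Set.mem_image, Set.mem_univ, true_and, Set.mem_setOf_eq]
    exact ⟨by rintro ⟨x, rfl⟩; omega, fun hn => ⟨n - 1, by omega⟩⟩
  · simp only [Set.image_union]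
    exact h2 _ (hs X 1 1 le_rfl) _ (hs Y 1 1 le_rfl)
  · have a := h3 _ (hs X 1 1 le_rfl) (h + 1) k (by omega) hk
    have b := h3 _ (hs X k (h + 1) (by omega)) k 1 hk le_rfl
    simp only [Set.image_image] at a b ⊢
    rw [← a]
    have e1 : (fun x => 1 * (k * x + h) + 1) = fun x => k * x + (h + 1) := by ext x; ring
    have e2 : (fun x => k * (1 * x + 1) + (h + 1)) = fun x => 1 * (k * x + (h + 1)) + k := by
      ext x; ring
    rw [e1, e2, b]
    simp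
  · simpa using h3 X hX 1 1 le_rfl le_rfl
  · rintro ν ⟨⟨-, -, g3, -⟩, g5⟩
    ext X
    rw [← g5 _ (hs X 1 1 le_rfl)]
    simpa using (g3 X (Set.subset_univ _) 1 1 le_rfl le_rfl).symm

end Pool.Agent.Results.MP_32b555_nt.Unique
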